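import Pool.Agent.Lib.MP_e3ae05_an.NoAdj

/-!
# Small-frequency limit of the upper parts of the phase-lock areas

The statement is written in the slow time `τ` of the problem, with the upper part
`L_{r,1}` defined through the first adjacency, and with the supremum of Euclidean distances
to the ray `R`.
-/

set_option autoImplicit false

open Filter Topology Set
open Pool.Agent.MPe3ae05

namespace Pool.Agent.Results.MP_e3ae05_an.UpperPartsLimit

noncomputable section

/-- `φ` (lifted to `ℝ`) solves `dφ/dτ = (1/ω) (- sin φ + B + A cos τ)`. -/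
def IsSolution (ω B A : ℝ) (φ : ℝ → ℝ) : Prop :=
  ∀ τ : ℝ, HasDerivAt φ (1 / ω * (-Real.sin (φ τ) + B + A * Real.cos τ)) τ

/-- The rotation number of the vector field with parameters `(B, A; ω)` is `ρ`: there is a
solution, and `φ(τ)/τ → ρ` as `τ → ∞` for every solution `φ`. -/
def RotationNumberEq (ω B A ρ : ℝ) : Prop :=
  (∃ φ, IsSolution ω B A φ) ∧
    ∀ φ, IsSolution ω B A φ → Tendsto (fun τ : ℝ => φ τ / τ) atTop (𝓝 ρ)

/-- The phase-lock area number `r`. -/
def phaseLockArea (ω : ℝ) (r : ℤ) : Set (ℝ × ℝ) := {P | RotationNumberEq ω P.1 P.2 r}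

/-- `P` is an adjacency of `L_r`: its ordinate is nonzero and `P` is the only point of `L_r`
on the horizontal line through it (the two boundary graphs meet at `P`). -/
def IsAdjacency (ω : ℝ) (r : ℤ) (P : ℝ × ℝ) : Prop :=
  P.2 ≠ 0 ∧ ∀ b : ℝ, (b, P.2) ∈ phaseLockArea ω r ↔ b = P.1

/-- `P` is the adjacency of `L_r` with the smallest positive ordinate. -/
def IsFirstAdjacency (ω : ℝ) (r : ℤ) (P : ℝ × ℝ) : Prop :=
  IsAdjacency ω r P ∧ 0 < P.2 ∧ ∀ P', IsAdjacency ω r P' → 0 < P'.2 → P.2 ≤ P'.2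

/-- The upper part `L_{r,1}` of `L_r`: the points of `L_r` not lower than the first
adjacency. -/
def upperPart (ω : ℝ) (r : ℤ) : Set (ℝ × ℝ) :=
  {P | P ∈ phaseLockArea ω r ∧ ∃ P₁, IsFirstAdjacency ω r P₁ ∧ P₁.2 ≤ P.2}

/-- The ray `R = {(0, A) : A ≥ 1}`, in the Euclidean plane `ℂ`. -/
def ray : Set ℂ := {z | z.re = 0 ∧ 1 ≤ z.im}

/-- Euclidean distance from the point `P = (B, A)` to the ray `R`. -/
def distToRay (P : ℝ × ℝ) : ℝ := Metric.infDist (⟨P.1, P.2⟩ : ℂ) ray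

lemma sol_of_isSolution {ω B A : ℝ} (hω : 0 < ω) {φ : ℝ → ℝ} (h : IsSolution ω B A φ) :
    Sol (ff B A ω) (fun t => φ (ω * t)) := by
  intro t
  have h1 : HasDerivAt (fun t : ℝ => ω * t) (ω * 1) t := (hasDerivAt_id t).const_mul ω
  have h2 := (h (ω * t)).comp t h1
  refine h2.congr_deriv ?_
  unfold ff
  field_simp
  ring

lemma isSolution_of_sol {ω B A : ℝ} (hω : 0 < ω) {φ : ℝ → ℝ} (h : Sol (ff B A ω) φ) :
    IsSolution ω B A (fun τ => φ (τ / ω)) := by
  intro τ
  have h1 : HasDerivAt (fun t : ℝ => t / ω) (1 / ω) τ := (hasDerivAt_id τ).div_const ω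
  have h2 := (h (τ / ω)).comp τ h1
  refine h2.congr_deriv ?_
  unfold ff
  have : ω * (τ / ω) = τ := by field_simp
  rw [this]
  ring

lemma tendsto_fast {ω ρ : ℝ} (hω : 0 < ω) {φ : ℝ → ℝ}
    (h : Tendsto (fun τ : ℝ => φ τ / τ) atTop (𝓝 ρ)) :
    Tendsto (fun t : ℝ => φ (ω * t) / t) atTop (𝓝 (ρ * ω)) := by
  have h1 : Tendsto (fun t : ℝ => ω * t) atTop atTop := tendsto_id.const_mul_atTop hω
  have h2 := (h.comp h1).mul_const ω
  apply h2.congr'
  filter_upwards [eventually_gt_atTop 0] with t ht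
  simp only [Function.comp_apply]
  field_simp

lemma tendsto_slow {ω ρ : ℝ} (hω : 0 < ω) {φ : ℝ → ℝ}
    (h : Tendsto (fun t : ℝ => φ t / t) atTop (𝓝 (ρ * ω))) :
    Tendsto (fun τ : ℝ => φ (τ / ω) / τ) atTop (𝓝 ρ) := by
  have h1 : Tendsto (fun t : ℝ => t / ω) atTop atTop := tendsto_id.atTop_div_const hω
  have h2 := (h.comp h1).mul_const (1 / ω)
  have e : ρ * ω * (1 / ω) = ρ := by field_simp
  rw [e] at h2
  apply h2.congr'
  filter_upwards [eventually_gt_atTop 0] with t ht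
  simp only [Function.comp_apply]
  field_simp

lemma mem_iff {ω : ℝ} (hω : 0 < ω) {r : ℤ} {B A : ℝ} :
    (B, A) ∈ phaseLockArea ω r ↔ InL r B A ω := by
  constructor
  · rintro ⟨⟨φ, hφ⟩, hall⟩
    exact ⟨_, sol_of_isSolution hω hφ, tendsto_fast hω (hall φ hφ)⟩
  · rintro ⟨φ, hφ, hlim⟩
    refine ⟨⟨_, isSolution_of_sol hω hφ⟩, ?_⟩
    intro ψ hψ
    have h1 := tendsto_all hφ (sol_of_isSolution hω hψ) hlim
    have h2 := tendsto_slow hω h1
    apply h2.congr
    intro τ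
    have : ω * (τ / ω) = τ := by field_simp
    simp only [this]

lemma distToRay_le {P : ℝ × ℝ} (h : 1 ≤ P.2) : distToRay P ≤ |P.1| := by
  unfold distToRay
  have hmem : (⟨0, P.2⟩ : ℂ) ∈ ray := ⟨rfl, h⟩
  refine (Metric.infDist_le_dist_of_mem hmem).trans (le_of_eq ?_)
  rw [Complex.dist_eq_re_im]
  simp [Real.sqrt_sq_eq_abs]

/-- For every `r`, the supremum over the upper part `L_{r,1}(ω)` of the distance to the ray
`R` tends to `0` as `ω → 0+`. -/
theorem result : ∀ r : ℤ,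
    Tendsto (fun ω : ℝ => ⨆ P ∈ upperPart ω r, ENNReal.ofReal (distToRay P))
      (𝓝[>] (0 : ℝ)) (𝓝 0) := by
  intro r
  rw [ENNReal.tendsto_nhds_zero]
  intro ε hε
  -- a real threshold
  obtain ⟨e0, he0, he0ε⟩ : ∃ e0 : ℝ, 0 < e0 ∧ ENNReal.ofReal e0 ≤ ε := by
    rcases eq_or_ne ε ⊤ with h | h
    · exact ⟨1, one_pos, by rw [h]; exact le_top⟩
    · exact ⟨ε.toReal, ENNReal.toReal_pos hε.ne' h, by rw [ENNReal.ofReal_toReal h]⟩
  set e : ℝ := min e0 1 with he
  have hep : 0 < e := lt_min he0 one_pos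
  have he1 : e ≤ 1 := min_le_right _ _
  have hee0 : e ≤ e0 := min_le_left _ _
  have hpi := Real.pi_pos
  set N : ℤ := |r| + 1 with hN
  have hN0 : (0 : ℝ) < (N : ℝ) + 1 := by
    have h1 : (0 : ℤ) ≤ |r| := abs_nonneg r
    have h2 : (0 : ℤ) < N + 1 := by rw [hN]; omega
    exact_mod_cast h2
  have hse : 0 < Real.sqrt e := Real.sqrt_pos.mpr hep
  have hδ : 0 < Real.sqrt e * e ^ 2 / (6 * Real.pi * (N + 1)) := by positivity
  filter_upwards [Ioo_mem_nhdsGT hδ] with ω hω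
  apply iSup₂_le
  rintro ⟨B, A⟩ ⟨hP, ⟨B₁, A₁⟩, ⟨hadj, hpos, _⟩, hle⟩
  have hω0 : 0 < ω := hω.1
  have hsmall : ω * (6 * Real.pi * (N + 1)) ≤ Real.sqrt e * e ^ 2 := by
    have := hω.2
    rw [lt_div_iff₀ (by positivity)] at this
    exact this.le
  have hheight := adj_height hω0 hpos ((mem_iff hω0).mp ((hadj.2 B₁).mpr rfl))
    (fun b hb => (hadj.2 b).mp ((mem_iff hω0).mpr hb))
  have hA1 : 1 ≤ A := by
    have := abs_nonneg B₁
    simp only at hle hheight
    linarith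
  have hL := (mem_iff hω0).mp hP
  have hB : |B| ≤ e := by
    rw [abs_le]
    constructor
    · by_contra hcon
      have hB' : e ≤ -B := by linarith [not_le.mp hcon]
      exact not_inL hep he1 hA1 hω0 hB' (by have := neg_le_abs r; omega) hsmall
        (inL_reflect hω0 hL)
    · by_contra hcon
      exact not_inL hep he1 hA1 hω0 (not_le.mp hcon).le (by have := le_abs_self r; omega)
        hsmall hL
  refine le_trans ?_ he0ε
  apply ENNReal.ofReal_le_ofReal
  exact ((distToRay_le (P := (B, A)) hA1).trans hB).trans hee0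

end

end Pool.Agent.Results.MP_e3ae05_an.UpperPartsLimit
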